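import Pool.Agent.X247.CR.Math
import Pool.Agent.H633R2.FptPad

/-!
# The fpt algorithm for the colour-reversal number
-/

namespace Pool.Agent.X247.CR

open Pool.Agent.NPC Pool.Agent.H633R2

/-! ### Lists representing graphs and colourings -/

/-- adjacency matrix -/
noncomputable def mat {n : ℕ} (G : SimpleGraph (Fin n)) : List (List Bool) := by
  classical
  exact (List.range n).map fun i => (List.range n).map fun j =>
    decide (∃ (hi : i < n) (hj : j < n), G.Adj ⟨i, hi⟩ ⟨j, hj⟩)

/-- vector of colours -/
noncomputable def col {n : ℕ} (f : Fin n → ℤˣ) : List Bool := by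
  classical
  exact (List.range n).map fun i => decide (∃ hi : i < n, f ⟨i, hi⟩ = -1)

/-- the matrix after one move -/
def stepM (n : ℕ) (A : List (List Bool)) (a : ℕ) : List (List Bool) :=
  (List.range n).map fun i => (List.range n).map fun j =>
    !(decide (i = j)) && (entry A i j ^^ (entry A a i && entry A a j))

/-- the colours after one move -/
def stepC (n : ℕ) (A : List (List Bool)) (f : List Bool) (a : ℕ) : List Bool :=
  (List.range n).map fun i => f.getD i false ^^ entry A a i

theorem getD_map_range {α : Type} (n i : ℕ) (f : ℕ → α) (d : α) :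
    ((List.range n).map f).getD i d = if i < n then f i else d := by
  by_cases h : i < n
  · simp [List.getD_eq_getElem?_getD, h]
  · simp [List.getD_eq_getElem?_getD, h]

open Classical in
theorem entry_mat {n : ℕ} (G : SimpleGraph (Fin n)) (i j : ℕ) :
    entry (mat G) i j = decide (∃ (hi : i < n) (hj : j < n), G.Adj ⟨i, hi⟩ ⟨j, hj⟩) := by
  unfold entry mat
  rw [getD_map_range]
  split_ifs with h1
  · rw [getD_map_range]
    split_ifs with h2
    · rfl
    · symm
      rw [decide_eq_false_iff_not]
      rintro ⟨_, h, _⟩
      exact h2 h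
  · have : ([] : List Bool).getD j false = false := by simp
    rw [this]
    symm
    rw [decide_eq_false_iff_not]
    rintro ⟨h, _, _⟩
    exact h1 h

theorem entry_mat_iff {n : ℕ} (G : SimpleGraph (Fin n)) (i j : ℕ) :
    entry (mat G) i j = true ↔ ∃ (hi : i < n) (hj : j < n), G.Adj ⟨i, hi⟩ ⟨j, hj⟩ := by
  classical
  rw [entry_mat, decide_eq_true_eq]

theorem getD_col_iff {n : ℕ} (f : Fin n → ℤˣ) (i : ℕ) :
    (col f).getD i false = true ↔ ∃ hi : i < n, f ⟨i, hi⟩ = -1 := by
  classical
  unfold col
  rw [getD_map_range]
  split_ifs with h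
  · simp only [decide_eq_true_eq, exists_prop_of_true h]
  · simp only [Bool.false_eq_true, false_iff]
    rintro ⟨h', _⟩
    exact h h'

theorem mat_congr {n : ℕ} {f g : ℕ → ℕ → Bool} (h : ∀ i < n, ∀ j < n, f i j = g i j) :
    ((List.range n).map fun i => (List.range n).map fun j => f i j) =
      (List.range n).map fun i => (List.range n).map fun j => g i j := by
  refine List.map_congr_left fun i hi => List.map_congr_left fun j hj => ?_
  exact h i (List.mem_range.1 hi) j (List.mem_range.1 hj)

open Classical in
theorem entry_mat' {n : ℕ} (G : SimpleGraph (Fin n)) (i j : ℕ) (hi : i < n) (hj : j < n) :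
    entry (mat G) i j = decide (G.Adj ⟨i, hi⟩ ⟨j, hj⟩) := by
  rw [entry_mat]
  exact decide_eq_decide.2 ⟨fun ⟨_, _, h⟩ => h, fun h => ⟨hi, hj, h⟩⟩

open Classical in
theorem getD_col' {n : ℕ} (f : Fin n → ℤˣ) (i : ℕ) (hi : i < n) :
    (col f).getD i false = decide (f ⟨i, hi⟩ = -1) := by
  rw [Bool.eq_iff_iff, getD_col_iff, decide_eq_true_eq]
  exact ⟨fun ⟨_, h⟩ => h, fun h => ⟨hi, h⟩⟩

theorem stepM_mat {n : ℕ} (G : SimpleGraph (Fin n)) (a : Fin n) :
    stepM n (mat G) a = mat (localComplement G a) := by
  classical
  refine mat_congr fun i hi j hj => ?_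
  rw [entry_mat' G i j hi hj, entry_mat' G a i a.2 hi, entry_mat' G a j a.2 hj]
  simp only [lc_adj, exists_prop_of_true hi, exists_prop_of_true hj, ne_eq, Fin.mk.injEq,
    Fin.eta]
  by_cases h0 : i = j
  · simp [h0]
  by_cases h1 : G.Adj ⟨i, hi⟩ ⟨j, hj⟩ <;> by_cases h2 : G.Adj a ⟨i, hi⟩ <;>
    by_cases h3 : G.Adj a ⟨j, hj⟩ <;> simp [h0, h1, h2, h3, Xor]

theorem stepM_ge {n : ℕ} (G : SimpleGraph (Fin n)) {a : ℕ} (ha : n ≤ a) :
    stepM n (mat G) a = mat G := by
  classical
  refine mat_congr fun i hi j hj => ?_
  have h1 : ∀ b, entry (mat G) a b = false := by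
    intro b
    rw [entry_mat, decide_eq_false_iff_not]
    rintro ⟨h, _, _⟩
    omega
  rw [h1, Bool.false_and, Bool.xor_false, entry_mat, Bool.eq_iff_iff]
  simp only [Bool.and_eq_true, Bool.not_eq_true', decide_eq_false_iff_not, decide_eq_true_eq,
    and_iff_right_iff_imp]
  rintro ⟨_, _, h⟩ rfl
  exact G.loopless.irrefl _ h

theorem stepC_col {n : ℕ} (G : SimpleGraph (Fin n)) (f : Fin n → ℤˣ) (a : Fin n) :
    stepC n (mat G) (col f) a = col (localInversion (G, f) a).2 := by
  classical
  refine List.map_congr_left fun i hi => ?_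
  have hi := List.mem_range.1 hi
  rw [entry_mat' G a i a.2 hi, getD_col' f i hi]
  simp only [localInversion, exists_prop_of_true hi, Fin.eta]
  have e1 : ¬ ((1 : ℤˣ) = -1) := by decide
  by_cases h : G.Adj a ⟨i, hi⟩
  · rcases Int.units_eq_one_or (f ⟨i, hi⟩) with h2 | h2
    · simp [h, h2, e1]
    · simp [h, h2, e1]
  · simp [h]

theorem stepC_ge {n : ℕ} (G : SimpleGraph (Fin n)) (f : Fin n → ℤˣ) {a : ℕ} (ha : n ≤ a) :
    stepC n (mat G) (col f) a = col f := by
  classical
  refine List.map_congr_left fun i hi => ?_
  have hi := List.mem_range.1 hi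
  have h1 : ∀ b, entry (mat G) a b = false := by
    intro b
    rw [entry_mat, decide_eq_false_iff_not]
    rintro ⟨h, _, _⟩
    omega
  rw [h1, Bool.xor_false, Bool.eq_iff_iff, getD_col_iff, decide_eq_true_eq]

theorem mat_injective {n : ℕ} {G H : SimpleGraph (Fin n)} (h : mat G = mat H) : G = H := by
  ext i j
  have h1 := entry_mat_iff G i j
  have h2 := entry_mat_iff H i j
  rw [h, h2] at h1
  simp only [i.2, j.2, exists_prop_of_true] at h1
  exact h1.symm

theorem col_injective {n : ℕ} {f g : Fin n → ℤˣ} (h : col f = col g) : f = g := by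
  funext i
  have h1 := getD_col_iff f i
  have h2 := getD_col_iff g i
  rw [h, h2] at h1
  simp only [i.2, exists_prop_of_true] at h1
  rcases Int.units_eq_one_or (f i) with h3 | h3 <;> rcases Int.units_eq_one_or (g i) with h4 | h4
  · rw [h3, h4]
  · exfalso
    have := h1.1 h4
    have h5 : f i = -1 := this
    rw [h3] at h5
    exact absurd h5 (by decide)
  · exfalso
    have := h1.2 h3
    have h5 : g i = -1 := this
    rw [h4] at h5
    exact absurd h5 (by decide)
  · rw [h3, h4]

/-! ### The simulation of a word given by the digits of a number -/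

/-- One roundS: the last digit of the number (in base `n + 1`) is the vertex; the digit `n` means
that nothing is done. -/
def roundS (n : ℕ) (s : ℕ × List (List Bool) × List Bool) (_ : Unit) :
    ℕ × List (List Bool) × List Bool :=
  (s.1 / (n + 1), stepM n s.2.1 (s.1 % (n + 1)), stepC n s.2.1 s.2.2 (s.1 % (n + 1)))

/-- the number with the digits of a word of length at most `k`, followed by digits `n` -/
def code (n : ℕ) : ℕ → List (Fin n) → ℕ
  | 0, _ => 0
  | k + 1, [] => n + (n + 1) * code n k []
  | k + 1, a :: w => a + (n + 1) * code n k w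

theorem code_lt (n : ℕ) : ∀ (k : ℕ) (w : List (Fin n)), code n k w < (n + 1) ^ k
  | 0, _ => by simp [code]
  | k + 1, [] => by
    have := code_lt n k []
    simp only [code, pow_succ]
    nlinarith
  | k + 1, a :: w => by
    have := code_lt n k w
    have h2 := a.2
    simp only [code, pow_succ]
    nlinarith

/-- the word given by the digits of a number -/
def decode (n : ℕ) : ℕ → ℕ → List (Fin n)
  | 0, _ => []
  | k + 1, m => (if h : m % (n + 1) < n then [⟨m % (n + 1), h⟩] else []) ++
      decode n k (m / (n + 1))

theorem decode_length (n : ℕ) : ∀ (k m : ℕ), (decode n k m).length ≤ k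
  | 0, _ => by simp [decode]
  | k + 1, m => by
    have := decode_length n k (m / (n + 1))
    simp only [decode, List.length_append]
    split_ifs <;> simp <;> omega

theorem decode_code (n : ℕ) : ∀ (k : ℕ) (w : List (Fin n)), w.length ≤ k →
    decode n k (code n k w) = w
  | 0, w => by
    intro h
    have : w = [] := List.length_eq_zero_iff.1 (by omega)
    simp [decode, this]
  | k + 1, [] => by
    intro _
    have h1 : (n + (n + 1) * code n k []) % (n + 1) = n := by
      rw [Nat.add_mul_mod_self_left, Nat.mod_eq_of_lt (by omega)]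
    have h2 : (n + (n + 1) * code n k []) / (n + 1) = code n k [] := by
      rw [Nat.add_mul_div_left _ _ (by omega), Nat.div_eq_of_lt (by omega), zero_add]
    simp only [decode, code, h1, h2, lt_irrefl, dif_neg, not_false_eq_true, List.nil_append]
    exact decode_code n k [] (by simp)
  | k + 1, a :: w => by
    intro h
    have h1 : ((a : ℕ) + (n + 1) * code n k w) % (n + 1) = a := by
      rw [Nat.add_mul_mod_self_left, Nat.mod_eq_of_lt (by omega)]
    have h2 : ((a : ℕ) + (n + 1) * code n k w) / (n + 1) = code n k w := by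
      rw [Nat.add_mul_div_left _ _ (by omega), Nat.div_eq_of_lt (by omega), zero_add]
    simp only [decode, code, h1, h2, a.2, dif_pos]
    rw [decode_code n k w (by simpa using h)]
    simp

/-- the state of the simulation belonging to a bicolored graph -/
noncomputable def rep {n : ℕ} (B : SimpleGraph (Fin n) × (Fin n → ℤˣ)) :
    List (List Bool) × List Bool := (mat B.1, col B.2)

theorem rep_injective {n : ℕ} {B C : SimpleGraph (Fin n) × (Fin n → ℤˣ)} (h : rep B = rep C) :
    B = C := by
  have h1 := congrArg Prod.fst h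
  have h2 := congrArg Prod.snd h
  exact Prod.ext (mat_injective h1) (col_injective h2)

theorem round_rep {n : ℕ} (B : SimpleGraph (Fin n) × (Fin n → ℤˣ)) (m : ℕ) :
    roundS n (m, rep B) () = (m / (n + 1), rep (applyWord B
      (if h : m % (n + 1) < n then [⟨m % (n + 1), h⟩] else []))) := by
  split_ifs with h
  · have h1 := stepM_mat B.1 ⟨m % (n + 1), h⟩
    have h2 := stepC_col B.1 B.2 ⟨m % (n + 1), h⟩
    simp only at h1 h2
    simp only [roundS, rep, h1, h2]
    rfl
  · have h1 := stepM_ge B.1 (a := m % (n + 1)) (by omega)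
    have h2 := stepC_ge B.1 B.2 (a := m % (n + 1)) (by omega)
    simp only [roundS, rep, h1, h2]
    rfl

theorem rounds_rep {n : ℕ} : ∀ (k m : ℕ) (B : SimpleGraph (Fin n) × (Fin n → ℤˣ)),
    ((List.replicate k ()).foldl (roundS n) (m, rep B)).2 = rep (applyWord B (decode n k m))
  | 0, m, B => rfl
  | k + 1, m, B => by
    rw [List.replicate_succ, List.foldl_cons, round_rep, rounds_rep k]
    congr 1
    simp only [applyWord, decode, List.foldl_append]

/-! ### The decision procedure -/

/-- the normalised matrix of the graph -/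
def normM (M : List (List Bool)) : List (List Bool) :=
  (List.range M.length).map fun i => (List.range M.length).map fun j =>
    !(decide (i = j)) && (entry M i j || entry M j i)

theorem norm_eq (M : List (List Bool)) : normM M = mat (graphOf M) := by
  classical
  refine mat_congr fun i hi j hj => ?_
  rw [Bool.eq_iff_iff]
  simp only [graphOf, Bool.and_eq_true, Bool.not_eq_true', decide_eq_false_iff_not,
    decide_eq_true_eq, exists_prop_of_true hi, exists_prop_of_true hj, ne_eq, Fin.mk.injEq,
    Bool.or_eq_true]

/-- the vector of colours with all entries `b` -/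
def consts (M : List (List Bool)) (b : Bool) : List Bool := M.map fun _ => b

theorem consts_false (M : List (List Bool)) :
    consts M false = col (1 : Fin M.length → ℤˣ) := by
  classical
  unfold consts col
  have h1 : (M.map fun _ => false) = (List.range M.length).map fun _ => false := by
    simp
  rw [h1]
  refine List.map_congr_left fun i hi => ?_
  symm
  rw [decide_eq_false_iff_not]
  rintro ⟨_, h⟩
  simp only [Pi.one_apply] at h
  exact absurd h (by decide)

theorem consts_true (M : List (List Bool)) :
    consts M true = col (-1 : Fin M.length → ℤˣ) := by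
  classical
  unfold consts col
  have h1 : (M.map fun _ => true) = (List.range M.length).map fun _ => true := by
    simp
  rw [h1]
  refine List.map_congr_left fun i hi => ?_
  symm
  rw [decide_eq_true_eq]
  exact ⟨List.mem_range.1 hi, rfl⟩

/-- the test of one number -/
def test (M : List (List Bool)) (r : List Unit) (m : ℕ) : Bool :=
  decide ((r.foldl (roundS M.length) (m, normM M, consts M false)).2 = (normM M, consts M true))

theorem test_iff (M : List (List Bool)) (k m : ℕ) :
    test M (List.replicate k ()) m = true ↔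
      applyWord (graphOf M, 1) (decode M.length k m) = (graphOf M, -1) := by
  unfold test
  rw [decide_eq_true_eq, consts_false, consts_true, norm_eq]
  have h1 := rounds_rep k m ((graphOf M, 1) : SimpleGraph (Fin M.length) × (Fin M.length → ℤˣ))
  have e1 : rep ((graphOf M, 1) : SimpleGraph (Fin M.length) × (Fin M.length → ℤˣ)) =
    (mat (graphOf M), col 1) := rfl
  have e2 : rep ((graphOf M, -1) : SimpleGraph (Fin M.length) × (Fin M.length → ℤˣ)) =
    (mat (graphOf M), col (-1)) := rfl
  rw [← e2, ← e1, h1]
  exact ⟨fun h => rep_injective h, fun h => by rw [h]⟩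

/-- the number of tests -/
def bnd (k : ℕ) : ℕ := 2 ^ ((k + 1) * k)

/-- the decision procedure -/
def dec (x : List (List Bool) × ℕ) : Bool :=
  (List.range (List.replicate (bnd x.2) ()).length).any
    (fun m => test x.1 (List.replicate x.2 ()) m)

theorem dec_iff (x : List (List Bool) × ℕ) :
    dec x = true ↔ cr (graphOf x.1) ≤ (x.2 : ℕ∞) := by
  obtain ⟨M, k⟩ := x
  rw [cr_le_iff]
  unfold dec
  simp only [List.length_replicate, List.any_eq_true, List.mem_range, test_iff]
  constructor
  · rintro ⟨m, _, h⟩
    exact ⟨_, decode_length _ _ _, h⟩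
  · rintro ⟨w, hw, h⟩
    refine ⟨code M.length k w, ?_, by rw [decode_code _ _ _ hw]; exact h⟩
    refine (code_lt _ _ _).trans_le ?_
    have h1 := card_le (graphOf M) w 1 h
    rw [Fintype.card_fin] at h1
    have h2 : 2 ^ w.length ≤ 2 ^ k := Nat.pow_le_pow_right (by norm_num) hw
    have h3 : k < 2 ^ k := Nat.lt_two_pow_self
    have h4 : M.length + 1 ≤ 2 ^ (k + 1) := by rw [pow_succ]; omega
    calc (M.length + 1) ^ k ≤ (2 ^ (k + 1)) ^ k := Nat.pow_le_pow_left h4 k
      _ = bnd k := by rw [← pow_mul]; rfl

end Pool.Agent.X247.CR
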