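import Mathlib

/-!
# Local inversions of bicolored graphs and the colour-reversal number
-/

namespace Pool.Agent.X247.CR

/-- The local complement `G_a`: the adjacency of every pair of distinct neighbours of `a` is
toggled. -/
def localComplement {V : Type} (G : SimpleGraph V) (a : V) : SimpleGraph V where
  Adj x y := x ≠ y ∧ Xor (G.Adj x y) (G.Adj a x ∧ G.Adj a y)
  symm := ⟨fun x y h => ⟨h.1.symm, by
    have h2 := h.2
    rw [G.adj_comm y x, and_comm (a := G.Adj a y)]
    exact h2⟩⟩
  loopless := ⟨fun _ h => h.1 rfl⟩

open Classical in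
/-- The local inversion `B_a` of a bicolored graph `B = (G, β)` at the vertex `a`. -/
noncomputable def localInversion {V : Type} (B : SimpleGraph V × (V → ℤˣ)) (a : V) :
    SimpleGraph V × (V → ℤˣ) :=
  (localComplement B.1 a, fun x => if B.1.Adj a x then -B.2 x else B.2 x)

/-- `B_w`: the local inversions at the letters of `w` are applied one after the other. -/
noncomputable def applyWord {V : Type} (B : SimpleGraph V × (V → ℤˣ)) (w : List V) :
    SimpleGraph V × (V → ℤˣ) := w.foldl localInversion B

/-- The colour-reversal number: the least `m` such that for every bicoloration `β` some string `w`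
of length at most `m` satisfies `B_w = (G, -β)`; it is `⊤` when there is no such `m`. -/
noncomputable def cr {V : Type} (G : SimpleGraph V) : ℕ∞ :=
  sInf {l : ℕ∞ | ∃ m : ℕ, l = m ∧
    ∀ β : V → ℤˣ, ∃ w : List V, w.length ≤ m ∧ applyWord (G, β) w = (G, -β)}

theorem lc_adj {V : Type} (G : SimpleGraph V) (a x y : V) :
    (localComplement G a).Adj x y ↔ x ≠ y ∧ Xor (G.Adj x y) (G.Adj a x ∧ G.Adj a y) := Iff.rfl

/-- The graph part of `B_w` does not depend on the colours, and the colours are changed by a
factor not depending on the colours. -/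
theorem applyWord_fst {V : Type} (w : List V) : ∀ (G : SimpleGraph V) (β γ δ : V → ℤˣ),
    (∀ x, γ x = δ x * β x) →
    (applyWord (G, γ) w).1 = (applyWord (G, β) w).1 ∧
      ∀ x, (applyWord (G, γ) w).2 x = δ x * (applyWord (G, β) w).2 x := by
  induction w with
  | nil => intro G β γ δ h; exact ⟨rfl, h⟩
  | cons a w ih =>
    intro G β γ δ h
    have := ih (localComplement G a) (localInversion (G, β) a).2 (localInversion (G, γ) a).2 δ (by
      intro x
      simp only [localInversion]
      split_ifs
      · rw [h x, mul_neg]
      · exact h x)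
    exact this

/-- A word reverses the colours for one bicoloration iff it does so for every bicoloration. -/
theorem applyWord_indep {V : Type} (G : SimpleGraph V) (w : List V) (β γ : V → ℤˣ)
    (h : applyWord (G, β) w = (G, -β)) : applyWord (G, γ) w = (G, -γ) := by
  have h1 := applyWord_fst w G β γ (fun x => γ x * (β x)⁻¹)
    (fun x => by rw [inv_mul_cancel_right])
  rw [h] at h1
  refine Prod.ext h1.1 (funext fun x => ?_)
  rw [h1.2 x]
  simp only [Pi.neg_apply, mul_neg, inv_mul_cancel_right]

/-- The colour-reversal number is at most `k` iff some word of length at most `k` reverses the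
colours. -/
theorem cr_le_iff {V : Type} (G : SimpleGraph V) (k : ℕ) :
    cr G ≤ (k : ℕ∞) ↔ ∃ w : List V, w.length ≤ k ∧ applyWord (G, 1) w = (G, -1) := by
  constructor
  · intro h
    have hne : {l : ℕ∞ | ∃ m : ℕ, l = m ∧
        ∀ β : V → ℤˣ, ∃ w : List V, w.length ≤ m ∧ applyWord (G, β) w = (G, -β)}.Nonempty := by
      by_contra hc
      rw [Set.not_nonempty_iff_eq_empty] at hc
      unfold cr at h
      rw [hc, sInf_empty] at h
      exact absurd h (by simp)
    obtain ⟨m, hm, hw⟩ := csInf_mem hne
    obtain ⟨w, hw1, hw2⟩ := hw 1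
    refine ⟨w, ?_, hw2⟩
    have h2 : ((m : ℕ) : ℕ∞) ≤ k := by rw [← hm]; exact h
    have h3 : m ≤ k := by exact_mod_cast h2
    exact hw1.trans h3
  · rintro ⟨w, hw1, hw2⟩
    exact sInf_le ⟨k, rfl, fun β => ⟨w, hw1, applyWord_indep G w 1 β hw2⟩⟩

/-- The invariant: two vertices that are not letters of the word and have the same neighbours
among the letters. -/
theorem pair_invariant {V : Type} (A : Set V) {x y : V} (hx : x ∉ A) (hy : y ∉ A) (hxy : x ≠ y)
    (w : List V) (hw : ∀ a ∈ w, a ∈ A) : ∀ B : SimpleGraph V × (V → ℤˣ),
    (∀ a ∈ A, (B.1.Adj a x ↔ B.1.Adj a y)) →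
    ((applyWord B w).2 x = B.2 x ∧ ((applyWord B w).1.Adj x y ↔ B.1.Adj x y)) ∨
    ((applyWord B w).2 x = -B.2 x ∧ ((applyWord B w).1.Adj x y ↔ ¬ B.1.Adj x y)) := by
  induction w with
  | nil => intro B _; exact Or.inl ⟨rfl, Iff.rfl⟩
  | cons a w ih =>
    intro B hB
    have ha : a ∈ A := hw a (by simp)
    have h1 : ∀ b ∈ A, ((localInversion B a).1.Adj b x ↔ (localInversion B a).1.Adj b y) := by
      intro b hb
      have e1 : b ≠ x := fun h => hx (h ▸ hb)
      have e2 : b ≠ y := fun h => hy (h ▸ hb)
      simp only [localInversion, lc_adj, e1, e2, ne_eq, not_false_eq_true, true_and, hB b hb,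
        hB a ha]
    have h2 := ih (fun b hb => hw b (by simp [hb])) (localInversion B a) h1
    have e : applyWord B (a :: w) = applyWord (localInversion B a) w := rfl
    rw [e]
    have e3 := hB a ha
    by_cases h : B.1.Adj a x
    · have h' := e3.1 h
      have c1 : (localInversion B a).2 x = -B.2 x := by simp [localInversion, h]
      have c2 : (localInversion B a).1.Adj x y ↔ ¬ B.1.Adj x y := by
        simp only [localInversion, lc_adj, hxy, ne_eq, not_false_eq_true, true_and, h, h', and_self]
        by_cases hh : B.1.Adj x y <;> simp [hh, Xor]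
      rw [c1, c2, neg_neg] at h2
      rcases h2 with h2 | h2
      · exact Or.inr h2
      · refine Or.inl ⟨h2.1, h2.2.trans not_not⟩
    · have c1 : (localInversion B a).2 x = B.2 x := by simp [localInversion, h]
      have c2 : (localInversion B a).1.Adj x y ↔ B.1.Adj x y := by
        simp only [localInversion, lc_adj, hxy, ne_eq, not_false_eq_true, true_and, h, false_and]
        by_cases hh : B.1.Adj x y <;> simp [hh, Xor]
      rw [c1, c2] at h2
      exact h2

/-- If `w` reverses the colours then vertices outside `w` are distinguished by their neighbours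
in `w`. -/
theorem outside_injective {V : Type} (G : SimpleGraph V) (w : List V) (β : V → ℤˣ)
    (h : applyWord (G, β) w = (G, -β)) {x y : V} (hx : x ∉ w) (hy : y ∉ w)
    (hxy : ∀ a ∈ w, (G.Adj a x ↔ G.Adj a y)) : x = y := by
  by_contra hne
  have h1 := pair_invariant {a | a ∈ w} (x := x) (y := y) hx hy hne w (fun a ha => ha) (G, β)
    (fun a ha => hxy a ha)
  rw [h] at h1
  rcases h1 with h1 | h1
  · have h2 := h1.1
    simp only [Pi.neg_apply] at h2
    rcases Int.units_eq_one_or (β x) with h3 | h3
    · rw [h3] at h2; exact absurd h2 (by decide)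
    · rw [h3] at h2; exact absurd h2 (by decide)
  · have h2 := h1.2
    simp only at h2
    by_cases h3 : G.Adj x y
    · exact (h2.1 h3) h3
    · exact h3 (h2.2 h3)

/-- A graph with a colour-reversing word of length `ℓ` has at most `ℓ + 2 ^ ℓ` vertices. -/
theorem card_le {V : Type} [Fintype V] (G : SimpleGraph V) (w : List V) (β : V → ℤˣ)
    (h : applyWord (G, β) w = (G, -β)) : Fintype.card V ≤ w.length + 2 ^ w.length := by
  classical
  have h1 : (Finset.univ \ w.toFinset).card ≤ (w.toFinset.powerset).card := by
    refine Finset.card_le_card_of_injOn (fun x => w.toFinset.filter (fun a => G.Adj a x))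
      (fun x _ => by
        rw [Finset.mem_coe, Finset.mem_powerset]
        exact Finset.filter_subset _ _) ?_
    intro x hx y hy hxy
    simp only [Finset.coe_sdiff, Finset.coe_univ, Set.mem_sdiff, Set.mem_univ, Finset.mem_coe,
      List.mem_toFinset, true_and] at hx hy
    refine outside_injective G w β h hx hy fun a ha => ?_
    have := congrArg (fun s => a ∈ s) hxy
    simpa [ha] using this
  rw [Finset.card_powerset] at h1
  have h2 := List.toFinset_card_le w
  have h3 : (2 : ℕ) ^ w.toFinset.card ≤ 2 ^ w.length := Nat.pow_le_pow_right (by norm_num) h2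
  have h4 : (Finset.univ : Finset V).card ≤ (Finset.univ \ w.toFinset).card + w.toFinset.card := by
    have := Finset.card_le_card (s := (Finset.univ : Finset V))
      (t := (Finset.univ \ w.toFinset) ∪ w.toFinset) (by simp)
    exact this.trans (Finset.card_union_le _ _)
  rw [Finset.card_univ] at h4
  omega

end Pool.Agent.X247.CR
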