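import Pool.Agent.X247.CR.Alg

/-!
# Running time of the fpt algorithm for the colour-reversal number
-/

namespace Pool.Agent.NPC.X247.CR

open Pool.Agent.X247.CR Pool.Agent.H633R2

theorem poly_entry {α : Type} [TEnc α] {M : α → List (List Bool)} {i j : α → ℕ} (hM : Poly M)
    (hi : Poly i) (hj : Poly j) : Poly (fun a => entry (M a) (i a) (j a)) :=
  Poly.getD (Poly.getD hM hi (Poly.const _)) hj (Poly.const _)

theorem poly_norm : Poly normM := by
  refine Poly.map (l := fun M : List (List Bool) => List.range M.length)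
    (F := fun M i => (List.range M.length).map fun j =>
      !(decide (i = j)) && (entry M i j || entry M j i)) (Poly.range_length Poly.id) ?_
  refine Poly.map (l := fun p : List (List Bool) × ℕ => List.range p.1.length)
    (F := fun p j => !(decide (p.2 = j)) && (entry p.1 p.2 j || entry p.1 j p.2))
    (Poly.range_length (Poly.fst Poly.id)) ?_
  have hM : Poly (fun q : (List (List Bool) × ℕ) × ℕ => q.1.1) := Poly.fst (Poly.fst Poly.id)
  have hi : Poly (fun q : (List (List Bool) × ℕ) × ℕ => q.1.2) := Poly.snd (Poly.fst Poly.id)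
  have hj : Poly (fun q : (List (List Bool) × ℕ) × ℕ => q.2) := Poly.snd Poly.id
  exact Poly.and (Poly.not (Poly.decide_eq hi hj)) (Poly.or (poly_entry hM hi hj)
    (poly_entry hM hj hi))

theorem poly_consts (b : Bool) : Poly (fun M => consts M b) :=
  Poly.map (l := fun M : List (List Bool) => M) (F := fun _ _ => b) Poly.id (Poly.const _)

/-- one move on the matrix -/
theorem poly_stepM {α : Type} [TEnc α] {u M : α → List (List Bool)} {a : α → ℕ} (hu : Poly u)
    (hM : Poly M) (ha : Poly a) : Poly (fun x => stepM (u x).length (M x) (a x)) := by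
  refine Poly.map (l := fun x => List.range (u x).length)
    (F := fun x i => (List.range (u x).length).map fun j =>
      !(decide (i = j)) && (entry (M x) i j ^^ (entry (M x) (a x) i && entry (M x) (a x) j)))
    (Poly.range_length hu) ?_
  refine Poly.map (l := fun p : α × ℕ => List.range (u p.1).length)
    (F := fun p j => !(decide (p.2 = j)) && (entry (M p.1) p.2 j ^^
      (entry (M p.1) (a p.1) p.2 && entry (M p.1) (a p.1) j)))
    (Poly.range_length (hu.comp (Poly.fst Poly.id))) ?_
  have hM' : Poly (fun q : (α × ℕ) × ℕ => M q.1.1) := hM.comp (Poly.fst (Poly.fst Poly.id))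
  have ha' : Poly (fun q : (α × ℕ) × ℕ => a q.1.1) := ha.comp (Poly.fst (Poly.fst Poly.id))
  have hi : Poly (fun q : (α × ℕ) × ℕ => q.1.2) := Poly.snd (Poly.fst Poly.id)
  have hj : Poly (fun q : (α × ℕ) × ℕ => q.2) := Poly.snd Poly.id
  exact Poly.and (Poly.not (Poly.decide_eq hi hj)) (Poly.xor (poly_entry hM' hi hj)
    (Poly.and (poly_entry hM' ha' hi) (poly_entry hM' ha' hj)))

/-- one move on the colours -/
theorem poly_stepC {α : Type} [TEnc α] {u M : α → List (List Bool)} {f : α → List Bool}
    {a : α → ℕ} (hu : Poly u) (hM : Poly M) (hf : Poly f) (ha : Poly a) :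
    Poly (fun x => stepC (u x).length (M x) (f x) (a x)) := by
  refine Poly.map (l := fun x => List.range (u x).length)
    (F := fun x i => (f x).getD i false ^^ entry (M x) (a x) i) (Poly.range_length hu) ?_
  exact Poly.xor (Poly.getD (hf.comp (Poly.fst Poly.id)) (Poly.snd Poly.id) (Poly.const _))
    (poly_entry (hM.comp (Poly.fst Poly.id)) (ha.comp (Poly.fst Poly.id)) (Poly.snd Poly.id))

/-- shapes of the states -/
def Shape (n m : ℕ) (s : ℕ × List (List Bool) × List Bool) : Prop :=
  s.1 ≤ m ∧ s.2.1.length = n ∧ (∀ r ∈ s.2.1, r.length = n) ∧ s.2.2.length = n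

theorem shape_round {n m : ℕ} {s : ℕ × List (List Bool) × List Bool} (h : s.1 ≤ m) (u : Unit) :
    Shape n m (roundS n s u) := by
  refine ⟨(Nat.div_le_self _ _).trans h, by simp [roundS, stepM], ?_, by simp [roundS, stepC]⟩
  intro r hr
  simp only [roundS, stepM, List.mem_map, List.mem_range] at hr
  obtain ⟨i, _, rfl⟩ := hr
  simp

theorem shape_foldl {n m : ℕ} (r : List Unit) : ∀ (s : ℕ × List (List Bool) × List Bool),
    Shape n m s → Shape n m (r.foldl (roundS n) s) := by
  induction r with
  | nil => intro s h; exact h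
  | cons u r ih => intro s h; exact ih _ (shape_round h.1 u)

theorem shape_sz {n m : ℕ} {s : ℕ × List (List Bool) × List Bool} (h : Shape n m s) :
    sz s ≤ 2 * sz m + (n * (4 * n + 2) + 1) + (4 * n + 1) + 2 := by
  obtain ⟨x, A, f⟩ := s
  obtain ⟨h1, h2, h3, h4⟩ := h
  simp only at h1 h2 h3 h4
  have e1 := sz_nat_mono_le h1
  have e2 := sz_le_length_mul A (4 * n + 1) (by
    intro r hr
    have := sz_listBool_le r
    rw [h3 r hr] at this
    exact this)
  rw [h2] at e2
  have e3 := sz_listBool_le f
  rw [h4] at e3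
  simp only [sz_pair]
  have e4 : n * (4 * n + 1 + 1) + 1 = n * (4 * n + 2) + 1 := by ring
  omega

theorem poly_test : Poly (fun p : (List (List Bool) × List Unit) × ℕ => test p.1.1 p.1.2 p.2) := by
  have hM : Poly (fun p : (List (List Bool) × List Unit) × ℕ => p.1.1) :=
    Poly.fst (Poly.fst Poly.id)
  have hr : Poly (fun p : (List (List Bool) × List Unit) × ℕ => p.1.2) :=
    Poly.snd (Poly.fst Poly.id)
  have hm : Poly (fun p : (List (List Bool) × List Unit) × ℕ => p.2) := Poly.snd Poly.id
  have hn : Poly (fun p : (List (List Bool) × List Unit) × ℕ => normM p.1.1) := poly_norm.comp hM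
  refine Poly.decide_eq (Poly.snd (Poly.foldl
    (l := fun p : (List (List Bool) × List Unit) × ℕ => p.1.2)
    (s := fun p => (p.2, normM p.1.1, consts p.1.1 false))
    (F := fun p => roundS p.1.1.length) hr
    (Poly.pair hm (Poly.pair hn ((poly_consts false).comp hM))) ?_
    (Polynomial.C 2 * Polynomial.X + (Polynomial.X * (Polynomial.C 4 * Polynomial.X +
      Polynomial.C 2) + Polynomial.C 1) + (Polynomial.C 4 * Polynomial.X + Polynomial.C 1) +
      Polynomial.C 2) ?_))
    (Poly.pair hn ((poly_consts true).comp hM))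
  · have hM' : Poly (fun q : ((List (List Bool) × List Unit) × ℕ) ×
        (ℕ × List (List Bool) × List Bool) × Unit => q.1.1.1) :=
      Poly.fst (Poly.fst (Poly.fst Poly.id))
    have hm' : Poly (fun q : ((List (List Bool) × List Unit) × ℕ) ×
        (ℕ × List (List Bool) × List Bool) × Unit => q.2.1.1) :=
      Poly.fst (Poly.fst (Poly.snd Poly.id))
    have hA' : Poly (fun q : ((List (List Bool) × List Unit) × ℕ) ×
        (ℕ × List (List Bool) × List Bool) × Unit => q.2.1.2.1) :=
      Poly.fst (Poly.snd (Poly.fst (Poly.snd Poly.id)))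
    have hf' : Poly (fun q : ((List (List Bool) × List Unit) × ℕ) ×
        (ℕ × List (List Bool) × List Bool) × Unit => q.2.1.2.2) :=
      Poly.snd (Poly.snd (Poly.fst (Poly.snd Poly.id)))
    have hn' : Poly (fun q : ((List (List Bool) × List Unit) × ℕ) ×
        (ℕ × List (List Bool) × List Bool) × Unit => q.1.1.1.length + 1) :=
      Poly.succ (Poly.length hM')
    have ha' := Poly.mod hm' hn'
    exact Poly.pair (Poly.div hm' hn') (Poly.pair (poly_stepM hM' hA' ha')
      (poly_stepC hM' hA' hf' ha'))
  · rintro ⟨⟨M, r⟩, m⟩ k _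
    have h0 : Shape M.length m (m, normM M, consts M false) := by
      refine ⟨le_rfl, by simp [normM], ?_, by simp [consts]⟩
      intro r hr
      simp only [normM, List.mem_map, List.mem_range] at hr
      obtain ⟨i, _, rfl⟩ := hr
      simp
    have h1 := shape_sz (shape_foldl (r.take k) _ h0)
    refine h1.trans ?_
    have h2 := length_lt_sz M
    have h3 : sz ((M, r), m) = sz M + sz r + 1 + sz m + 1 := by simp only [sz_pair]
    have h4 : M.length ≤ sz ((M, r), m) := by omega
    have h5 : sz m ≤ sz ((M, r), m) := by omega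
    simp only [Polynomial.eval_add, Polynomial.eval_mul, Polynomial.eval_C, Polynomial.eval_X]
    have h6 : M.length * (4 * M.length + 2) ≤
        sz ((M, r), m) * (4 * sz ((M, r), m) + 2) := Nat.mul_le_mul h4 (by omega)
    omega

theorem uf_bnd : H633.UF bnd :=
  H633.UF.two_pow (H633.UF.mul (H633.UF.add H633.UF.id (H633.UF.const 1)) H633.UF.id)

/-- The decision procedure runs in fpt time. -/
theorem fptTime_dec : FptTime (fun x : List (List Bool) × ℕ => x.2) dec := by
  have h1 : Poly (fun p : (List (List Bool) × ℕ) × List Unit × List Unit =>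
      (List.range p.2.1.length).any (fun m => test p.1.1 p.2.2 m)) := by
    refine Poly.any (l := fun p : (List (List Bool) × ℕ) × List Unit × List Unit =>
      List.range p.2.1.length) (p := fun p m => test p.1.1 p.2.2 m)
      (Poly.range_length (Poly.fst (Poly.snd Poly.id))) ?_
    exact poly_test.comp (Poly.pair (Poly.pair (Poly.fst (Poly.fst (Poly.fst Poly.id)))
      (Poly.snd (Poly.snd (Poly.fst Poly.id)))) (Poly.snd Poly.id))
  exact FptTime.poly_comp (f := fun x : List (List Bool) × ℕ =>
      (x, List.replicate (bnd x.2) (), List.replicate x.2 ())) h1 ((FptTime.of_poly Poly.id).pair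
    ((uf_bnd.pad (Poly.snd Poly.id)).pair (H633.UF.id.pad (Poly.snd Poly.id))))

end Pool.Agent.NPC.X247.CR
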